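import Pool.Agent.N353.Roots.Est
import Pool.Agent.N353.Star.Transfer

set_option autoImplicit false

namespace Pool.Agent.N353.Roots

open Finset Filter Pool.Agent.Helper46 Pool.Agent.Helper46.A Pool.Agent.Helper46.A.F
  Pool.Agent.N353.Star

open Classical in
theorem rel_sum {n : ℕ} (M : Matroid (Fin n)) (F : Fam n)
    (hI : ∀ I : Finset (Fin n), M.Indep (I : Set (Fin n)) ↔ indep F I) (q : ℂ) :
    ∑ i ∈ range (n + 1), ((Nat.card {I : Finset (Fin n) // M.Indep (I : Set (Fin n)) ∧ I.card = i} :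
      ℕ) : ℂ) * q ^ i * (1 - q) ^ (n - i) =
      ∑ I ∈ (univ : Finset (Finset (Fin n))).filter (fun I => indep F I),
        q ^ I.card * (1 - q) ^ (n - I.card) := by
  have h1 := sum_fiberwise_of_maps_to
    (s := (univ : Finset (Finset (Fin n))).filter (fun I => indep F I)) (t := range (n + 1))
    (g := card) (fun X _ => by
      rw [mem_range]
      have := card_le_univ X
      rw [Fintype.card_fin] at this
      omega)
    (fun I => q ^ I.card * (1 - q) ^ (n - I.card))
  rw [← h1]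
  apply sum_congr rfl
  intro i _
  rw [sum_congr rfl (g := fun _ => q ^ i * (1 - q) ^ (n - i))
    (fun X hX => by rw [(mem_filter.1 hX).2]), sum_const, nsmul_eq_mul, mul_assoc]
  congr 2
  rw [Nat.card_eq_fintype_card, Fintype.card_subtype]
  congr 1
  ext X
  rw [mem_filter, mem_filter, mem_filter, hI]
  constructor
  · rintro ⟨h1, h2, h3⟩
    exact ⟨⟨h1, h2⟩, h3⟩
  · rintro ⟨⟨h1, h2⟩, h3⟩
    exact ⟨h1, h2, h3⟩

theorem roots_good {n r : ℕ} (hn : 400 ≤ n) (hr : r ≤ n) (M : Lab n)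
    (hB : IsBF r (bs_22726 M.1)) (hG : Good n r (1 / 30000) (bs_22726 M.1)) (q : ℂ)
    (hq : ∑ i ∈ range (n + 1), ((Nat.card {I : Finset (Fin n) // M.1.Indep (I : Set (Fin n)) ∧
      I.card = i} : ℕ) : ℂ) * q ^ i * (1 - q) ^ (n - i) = 0) : ‖q‖ < 1 ∨ q = 1 := by
  classical
  by_contra hcon
  push Not at hcon
  obtain ⟨hq1, hq2⟩ := hcon
  have hI : ∀ I : Finset (Fin n), M.1.Indep (I : Set (Fin n)) ↔ indep (bs_22726 M.1) I :=
    indep_iff hB M.2 (fun X => (mem_bs_22726 M.1 X).symm)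
  rw [rel_sum M.1 (bs_22726 M.1) hI] at hq
  have hq0 : q ≠ 0 := by
    intro h
    rw [h, norm_zero] at hq1
    linarith
  set z : ℂ := q⁻¹ with hz
  have hz1 : ‖z‖ ≤ 1 := by
    rw [hz, norm_inv]
    exact inv_le_one_of_one_le₀ hq1
  have hzq : q * z = 1 := mul_inv_cancel₀ hq0
  have hz2 : z - 1 ≠ 0 := by
    intro h
    have : z = 1 := sub_eq_zero.1 h
    rw [this, mul_one] at hzq
    exact hq2 hzq
  have hterm : ∀ I ∈ (univ : Finset (Finset (Fin n))).filter (fun I => indep (bs_22726 M.1) I),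
      q ^ I.card * (1 - q) ^ (n - I.card) =
        (q ^ n * (z - 1) ^ (n - r)) * (z - 1) ^ (r - I.card) := by
    intro I hI'
    rw [mem_filter] at hI'
    obtain ⟨-, X, hX, hIX⟩ := hI'
    have hc : I.card ≤ r := by
      rw [← hB.card X hX]; exact card_le_card hIX
    have e1 : (1 - q) = q * (z - 1) := by
      rw [mul_sub, hzq, mul_one]
    have e2 : n - I.card = (n - r) + (r - I.card) := by omega
    have e3 : q ^ n = q ^ I.card * q ^ (n - I.card) := by
      rw [← pow_add]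
      congr 1
      omega
    rw [e1, mul_pow, e3, e2, pow_add (z - 1)]
    ring
  rw [sum_congr rfl hterm, ← mul_sum, sum_act hB] at hq
  have hnv := nonvanish hn hG.1 hG.2.1 (bs_22726 M.1) hB.card hG.2.2 z hz1
  rw [sub_add_cancel] at hq
  rcases mul_eq_zero.1 hq with h | h
  · rcases mul_eq_zero.1 h with h | h
    · exact pow_ne_zero _ hq0 h
    · exact pow_ne_zero _ hz2 h
  · exact hnv h

end Pool.Agent.N353.Roots
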