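import Pool.Agent.Helper46.A.Bridge

set_option autoImplicit false

namespace Pool.Agent.N353.Roots

open Finset Pool.Agent.Helper46.A

/-- symmetric exchange -/
theorem strong_exch {n r : ℕ} {F : Fam n} (hF : IsBF r F) {X Y : Finset (Fin n)} (hX : X ∈ F)
    (hY : Y ∈ F) {x : Fin n} (hx : x ∈ Y) (hx' : x ∉ X) :
    ∃ y ∈ X, y ∉ Y ∧ insert x (X.erase y) ∈ F ∧ insert y (Y.erase x) ∈ F := by
  obtain ⟨M, hE, hM⟩ := toMat hF
  have hXb := (hM X).2 hX
  have hYb := (hM Y).2 hY
  have hgr : ∀ S : Set (Fin n), S ⊆ M.E := fun S => by rw [hE]; exact Set.subset_univ _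
  have hC := hXb.fundCircuit_isCircuit (x := x) (hgr {x} rfl) (by exact_mod_cast hx')
  set C := M.fundCircuit x X with hCdef
  have hxC : x ∈ C := M.mem_fundCircuit x X
  have hCX : C ⊆ insert x (X : Set (Fin n)) := M.fundCircuit_subset_insert x X
  have h1 := hC.mem_closure_sdiff_singleton_of_mem hxC
  have h2 := hYb.indep.notMem_closure_sdiff_of_mem (e := x) (by exact_mod_cast hx)
  have h3 : ¬ (C \ {x} ⊆ M.closure ((Y : Set (Fin n)) \ {x})) := fun h =>
    h2 (M.closure_subset_closure_of_subset_closure h h1)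
  rw [Set.not_subset] at h3
  obtain ⟨y, ⟨hyC, hyx⟩, hycl⟩ := h3
  rw [Set.mem_singleton_iff] at hyx
  have hyX : y ∈ X := by
    rcases hCX hyC with h | h
    · exact absurd h hyx
    · exact_mod_cast h
  have hyY : y ∉ Y := by
    intro hyY
    apply hycl
    apply M.mem_closure_of_mem' _ (hgr {y} rfl)
    exact ⟨by exact_mod_cast hyY, hyx⟩
  have k1 := hYb.exchange_base_of_notMem_closure (e := x) (f := y) (by exact_mod_cast hx) hycl
    (hgr {y} rfl)
  have k2 := hXb.exchange_base_of_notMem_closure (e := y) (f := x) (by exact_mod_cast hyX)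
    (by
      intro hcl
      have e1 := hC.mem_closure_sdiff_singleton_of_mem hyC
      have e2 : C \ {y} ⊆ M.closure ((X : Set (Fin n)) \ {y}) := by
        rintro w ⟨hwC, hwy⟩
        rcases hCX hwC with h | h
        · rw [h]; exact hcl
        · exact M.mem_closure_of_mem' ⟨h, hwy⟩ (hgr {w} rfl)
      have e3 := M.closure_subset_closure_of_subset_closure e2 e1
      exact hXb.indep.notMem_closure_sdiff_of_mem (by exact_mod_cast hyX) e3) (hgr {x} rfl)
  refine ⟨y, hyX, hyY, ?_, ?_⟩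
  · rw [← hM]
    simpa using k2
  · rw [← hM]
    simpa using k1

/-- internally active elements of a base -/
def act {n : ℕ} (F : Fam n) (B : Finset (Fin n)) : Finset (Fin n) :=
  B.filter (fun b => ∀ x < b, x ∉ B → insert x (B.erase b) ∉ F)

theorem mem_act {n : ℕ} {F : Fam n} {B : Finset (Fin n)} {b : Fin n} :
    b ∈ act F B ↔ b ∈ B ∧ ∀ x < b, x ∉ B → insert x (B.erase b) ∉ F := by
  unfold act; rw [mem_filter]

theorem act_subset {n : ℕ} {F : Fam n} {B : Finset (Fin n)} : act F B ⊆ B := filter_subset _ _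

/-- every independent set extends to a base by internally active elements -/
theorem act_exists {n : ℕ} {F : Fam n} {I : Finset (Fin n)} (hI : indep F I) :
    ∃ B ∈ F, I ⊆ B ∧ B \ I ⊆ act F B := by
  classical
  have hne : (F.filter (fun B => I ⊆ B)).Nonempty := by
    obtain ⟨X, hX, hIX⟩ := hI
    exact ⟨X, mem_filter.2 ⟨hX, hIX⟩⟩
  obtain ⟨B, hB, hmin⟩ := exists_min_image _ (fun B : Finset (Fin n) => ∑ x ∈ B, x.val) hne
  rw [mem_filter] at hB
  refine ⟨B, hB.1, hB.2, ?_⟩
  intro b hb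
  rw [Finset.mem_sdiff] at hb
  rw [mem_act]
  refine ⟨hb.1, fun x hxb hxB hmem => ?_⟩
  have h1 : insert x (B.erase b) ∈ F.filter (fun B => I ⊆ B) := by
    rw [mem_filter]
    refine ⟨hmem, ?_⟩
    intro i hi
    rw [mem_insert, mem_erase]
    right
    exact ⟨fun h => hb.2 (h ▸ hi), hB.2 hi⟩
  have h2 := hmin _ h1
  have h3 : ∑ y ∈ insert x (B.erase b), y.val = x.val + ∑ y ∈ B.erase b, y.val :=
    sum_insert (fun h => hxB (mem_of_mem_erase h))
  have h4 : b.val + ∑ y ∈ B.erase b, y.val = ∑ y ∈ B, y.val := add_sum_erase B (fun y => y.val) hb.1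
  have h5 : x.val < b.val := hxb
  omega

theorem act_unique {n r : ℕ} {F : Fam n} (hF : IsBF r F) {I X Y : Finset (Fin n)} (hX : X ∈ F)
    (hY : Y ∈ F) (hIX : I ⊆ X) (hIY : I ⊆ Y) (hX' : X \ I ⊆ act F X) (hY' : Y \ I ⊆ act F Y) :
    X = Y := by
  by_contra hne
  have h1 : ¬ Y ⊆ X := by
    intro h
    exact hne (eq_of_subset_of_card_le h (by rw [hF.card X hX, hF.card Y hY])).symm
  rw [not_subset] at h1
  obtain ⟨x, hxY, hxX⟩ := h1
  obtain ⟨y, hyX, hyY, h2, h3⟩ := strong_exch hF hX hY hxY hxX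
  have a1 := (mem_act.1 (hX' (Finset.mem_sdiff.2 ⟨hyX, fun h => hyY (hIY h)⟩))).2
  have a2 := (mem_act.1 (hY' (Finset.mem_sdiff.2 ⟨hxY, fun h => hxX (hIX h)⟩))).2
  rcases lt_trichotomy x y with h | h | h
  · exact a1 x h hxX h2
  · rw [h] at hxX
    exact hxX hyX
  · exact a2 y h hyY h3

open Classical in
theorem sum_act {n r : ℕ} {F : Fam n} (hF : IsBF r F) (w : ℂ) :
    ∑ I ∈ (univ : Finset (Finset (Fin n))).filter (fun I => indep F I), w ^ (r - I.card) =
      ∑ B ∈ F, (w + 1) ^ (act F B).card := by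
  have h1 : ∀ B ∈ F, (w + 1) ^ (act F B).card = ∑ S ∈ (act F B).powerset, w ^ S.card := by
    intro B _
    rw [← sum_pow_mul_eq_add_pow]
    apply sum_congr rfl
    intro S _
    rw [one_pow, mul_one]
  rw [sum_congr rfl h1, sum_sigma']
  symm
  refine sum_bij (fun p _ => p.1 \ p.2) ?_ ?_ ?_ ?_
  · rintro ⟨B, S⟩ hp
    rw [mem_sigma, mem_powerset] at hp
    rw [mem_filter]
    exact ⟨mem_univ _, B, hp.1, sdiff_subset⟩
  · rintro ⟨B, S⟩ hp ⟨B', S'⟩ hp' heq
    rw [mem_sigma, mem_powerset] at hp hp'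
    simp only at hp hp' heq
    have hSB : S ⊆ B := hp.2.trans act_subset
    have hSB' : S' ⊆ B' := hp'.2.trans act_subset
    have e1 : B = B' := by
      refine act_unique hF (I := B \ S) hp.1 hp'.1 sdiff_subset (heq ▸ sdiff_subset) ?_ ?_
      · rw [Finset.sdiff_sdiff_eq_self hSB]; exact hp.2
      · rw [heq, Finset.sdiff_sdiff_eq_self hSB']; exact hp'.2
    subst e1
    have e2 : S = S' := by
      rw [← Finset.sdiff_sdiff_eq_self hSB, ← Finset.sdiff_sdiff_eq_self hSB', heq]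
    subst e2
    rfl
  · intro I hI
    rw [mem_filter] at hI
    obtain ⟨B, hB, hIB, hact⟩ := act_exists hI.2
    refine ⟨⟨B, B \ I⟩, ?_, ?_⟩
    · rw [mem_sigma, mem_powerset]
      exact ⟨hB, hact⟩
    · exact Finset.sdiff_sdiff_eq_self hIB
  · rintro ⟨B, S⟩ hp
    rw [mem_sigma, mem_powerset] at hp
    simp only at hp ⊢
    have hSB : S ⊆ B := hp.2.trans act_subset
    rw [card_sdiff_of_subset hSB, hF.card B hp.1]
    congr 1
    have := card_le_card hSB
    rw [hF.card B hp.1] at this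
    omega

end Pool.Agent.N353.Roots
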