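import Pool.Agent.N353.Roots.Act

set_option autoImplicit false

namespace Pool.Agent.N353.Roots

open Finset Pool.Agent.Helper46.A

theorem ini_ex {n : ℕ} (B : Finset (Fin n)) : ∃ m : ℕ, ∀ h : m < n, (⟨m, h⟩ : Fin n) ∉ B :=
  ⟨n, fun h => absurd h (lt_irrefl n)⟩

open Classical in
/-- length of the initial segment contained in `B` -/
noncomputable def ini {n : ℕ} (B : Finset (Fin n)) : ℕ := Nat.find (ini_ex B)

theorem ini_notMem {n : ℕ} {B : Finset (Fin n)} (h : ini B < n) : (⟨ini B, h⟩ : Fin n) ∉ B := by
  classical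
  exact Nat.find_spec (ini_ex B) h

theorem lt_ini {n : ℕ} {B : Finset (Fin n)} {x : Fin n} (h : x.val < ini B) : x ∈ B := by
  classical
  have h1 := Nat.find_min (ini_ex B) h
  push Not at h1
  obtain ⟨_, h2⟩ := h1
  exact h2

theorem ini_le {n : ℕ} {B : Finset (Fin n)} {x : Fin n} (h : x ∉ B) : ini B ≤ x.val := by
  by_contra hcon
  push Not at hcon
  exact h (lt_ini hcon)

/-- the initial segment with `i` elements -/
def seg (n i : ℕ) : Finset (Fin n) := univ.filter (fun x => x.val < i)

theorem seg_card {n i : ℕ} (h : i ≤ n) : (seg n i).card = i := by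
  unfold seg
  rw [Fin.card_filter_val_lt]
  omega

theorem le_ini_iff {n i : ℕ} (hi : i ≤ n) {B : Finset (Fin n)} : i ≤ ini B ↔ seg n i ⊆ B := by
  constructor
  · intro h x hx
    unfold seg at hx
    rw [mem_filter] at hx
    exact lt_ini (lt_of_lt_of_le hx.2 h)
  · intro h
    by_contra hcon
    push Not at hcon
    have h1 : ini B < n := by omega
    exact ini_notMem h1 (h (by unfold seg; rw [mem_filter]; exact ⟨mem_univ _, hcon⟩))

theorem ini_eq_iff {n i : ℕ} (hi : i < n) {B : Finset (Fin n)} :
    ini B = i ↔ seg n i ⊆ B ∧ Disjoint {(⟨i, hi⟩ : Fin n)} B := by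
  rw [disjoint_singleton_left]
  constructor
  · intro h
    subst h
    exact ⟨(le_ini_iff hi.le).1 le_rfl, ini_notMem hi⟩
  · rintro ⟨h1, h2⟩
    exact le_antisymm (ini_le h2) ((le_ini_iff hi.le).2 h1)

/-- sets containing `A` and avoiding `D` -/
theorem count_AD {n r : ℕ} (A D : Finset (Fin n)) (hAD : Disjoint A D) (hA : A.card ≤ r) :
    ((powersetCard r (univ : Finset (Fin n))).filter (fun X => A ⊆ X ∧ Disjoint D X)).card =
      (n - A.card - D.card).choose (r - A.card) := by
  classical
  have hW : (univ \ (A ∪ D) : Finset (Fin n)).card = n - A.card - D.card := by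
    rw [card_sdiff_of_subset (subset_univ _), card_univ, Fintype.card_fin,
      card_union_of_disjoint hAD]
    omega
  rw [← hW, ← card_powersetCard]
  refine card_nbij' (fun X => X \ A) (fun S => S ∪ A) ?_ ?_ ?_ ?_
  · intro X hX
    rw [mem_coe, mem_filter, mem_powersetCard] at hX
    obtain ⟨⟨-, h1⟩, h2, h3⟩ := hX
    rw [mem_coe, mem_powersetCard, card_sdiff_of_subset h2, h1]
    refine ⟨?_, rfl⟩
    intro x hx
    rw [Finset.mem_sdiff] at hx
    rw [Finset.mem_sdiff, mem_union, not_or]
    exact ⟨mem_univ _, hx.2, fun h => Finset.disjoint_left.1 h3 h hx.1⟩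
  · intro S hS
    rw [mem_coe, mem_powersetCard] at hS
    obtain ⟨h1, h2⟩ := hS
    have h3 : ∀ x ∈ S, x ∉ A ∧ x ∉ D := by
      intro x hx
      have := h1 hx
      rw [Finset.mem_sdiff, mem_union, not_or] at this
      exact this.2
    have hd : Disjoint S A := Finset.disjoint_left.2 (fun x hx => (h3 x hx).1)
    rw [mem_coe, mem_filter, mem_powersetCard, card_union_of_disjoint hd, h2]
    refine ⟨⟨subset_univ _, by omega⟩, subset_union_right, ?_⟩
    rw [disjoint_union_right]
    exact ⟨Finset.disjoint_right.2 (fun x hx => (h3 x hx).2), hAD.symm⟩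
  · intro X hX
    rw [mem_coe, mem_filter] at hX
    exact sdiff_union_of_subset hX.2.1
  · intro S hS
    rw [mem_coe, mem_powersetCard] at hS
    ext x
    rw [Finset.mem_sdiff, mem_union]
    constructor
    · rintro ⟨h1 | h1, h2⟩
      · exact h1
      · exact absurd h1 h2
    · intro hx
      refine ⟨Or.inl hx, ?_⟩
      have := hS.1 hx
      rw [Finset.mem_sdiff, mem_union, not_or] at this
      exact this.2.1

theorem count_ini {n r i : ℕ} (hi : i < n) (hir : i ≤ r) :
    ((powersetCard r (univ : Finset (Fin n))).filter (fun X => ini X = i)).card =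
      (n - 1 - i).choose (r - i) := by
  classical
  have h1 := count_AD (n := n) (r := r) (seg n i) {(⟨i, hi⟩ : Fin n)} (by
    rw [Finset.disjoint_singleton_right]
    unfold seg
    simp) (by rw [seg_card hi.le]; exact hir)
  rw [seg_card hi.le, card_singleton] at h1
  have h2 : n - i - 1 = n - 1 - i := by omega
  rw [h2] at h1
  rw [← h1]
  congr 1
  apply filter_congr
  intro X _
  exact ini_eq_iff hi

theorem count_ini_ge {n r J : ℕ} (hJ : J ≤ n) (hJr : J ≤ r) :
    ((powersetCard r (univ : Finset (Fin n))).filter (fun X => J ≤ ini X)).card =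
      (n - J).choose (r - J) := by
  classical
  have h1 := count_AD (n := n) (r := r) (seg n J) ∅ (by simp) (by rw [seg_card hJ]; exact hJr)
  rw [seg_card hJ, card_empty, Nat.sub_zero] at h1
  rw [← h1]
  congr 1
  apply filter_congr
  intro X _
  rw [le_ini_iff hJ]
  simp

open Classical in
/-- few bases have more activity than their initial segment gives -/
theorem diff_count {n r J : ℕ} (hn : 0 < n) (hJ : J ≤ n) (F : Fam n) (hF : ∀ X ∈ F, X.card = r) :
    (F.filter (fun B => ini B < J ∧ (act F B).card ≠ ini B)).card ≤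
      J * ((powersetCard r (univ : Finset (Fin n))) \ F).card := by
  have hex : ∀ B : Finset (Fin n), ∃ b : Fin n, (B ∈ F ∧ ini B < J ∧ (act F B).card ≠ ini B) →
      b ∈ act F B ∧ ini B < b.val := by
    intro B
    by_cases hB : B ∈ F ∧ ini B < J ∧ (act F B).card ≠ ini B
    · obtain ⟨hB1, hB2, hB3⟩ := hB
      have hin : ini B < n := by omega
      have hsub : seg n (ini B) ⊆ act F B := by
        intro x hx
        unfold seg at hx
        rw [mem_filter] at hx
        rw [mem_act]
        refine ⟨lt_ini hx.2, fun y hy hyB => ?_⟩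
        have h1 : y.val < x.val := hy
        exact absurd (lt_ini (by omega)) hyB
      have hne : ¬ act F B ⊆ seg n (ini B) := by
        intro h
        apply hB3
        rw [Finset.Subset.antisymm h hsub, seg_card hin.le]
      rw [not_subset] at hne
      obtain ⟨b, hb, hb2⟩ := hne
      refine ⟨b, fun _ => ⟨hb, ?_⟩⟩
      unfold seg at hb2
      rw [mem_filter, not_and] at hb2
      have h1 := hb2 (mem_univ _)
      have h2 : b.val ≠ ini B := by
        intro h
        apply ini_notMem hin
        have : (⟨ini B, hin⟩ : Fin n) = b := Fin.ext h.symm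
        rw [this]
        exact act_subset hb
      omega
    · exact ⟨⟨0, hn⟩, fun h => absurd h hB⟩
  choose b hb using hex
  let m : Finset (Fin n) → Fin n := fun B => ⟨min (ini B) (n - 1), by omega⟩
  set D := F.filter (fun B => ini B < J ∧ (act F B).card ≠ ini B) with hD
  have hDm : ∀ B ∈ D, B ∈ F ∧ ini B < J ∧ (act F B).card ≠ ini B ∧ (m B).val = ini B ∧ m B ∉ B ∧
      b B ∈ act F B ∧ m B < b B := by
    intro B hB
    rw [hD, mem_filter] at hB
    obtain ⟨h1, h2, h3⟩ := hB
    obtain ⟨h4, h5⟩ := hb B ⟨h1, h2, h3⟩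
    have h6 : (m B).val = ini B := by
      show min (ini B) (n - 1) = ini B
      omega
    refine ⟨h1, h2, h3, h6, ?_, h4, ?_⟩
    · have h7 : m B = ⟨ini B, by omega⟩ := Fin.ext h6
      rw [h7]
      exact ini_notMem _
    · show (m B).val < (b B).val
      omega
  have hJc : J * ((powersetCard r (univ : Finset (Fin n))) \ F).card =
      ((range J) ×ˢ ((powersetCard r (univ : Finset (Fin n))) \ F)).card := by
    rw [card_product, card_range]
  rw [hJc]
  refine card_le_card_of_injOn (fun B => (ini B, insert (m B) (B.erase (b B)))) ?_ ?_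
  · intro B hB
    rw [mem_coe] at hB
    obtain ⟨h1, h2, h3, h4, h5, h6, h7⟩ := hDm B hB
    rw [mem_act] at h6
    rw [mem_coe, mem_product, mem_range, Finset.mem_sdiff, mem_powersetCard]
    refine ⟨h2, ⟨subset_univ _, ?_⟩, h6.2 _ h7 h5⟩
    show (insert (m B) (B.erase (b B))).card = r
    rw [card_insert_of_notMem (fun h => h5 (mem_of_mem_erase h)), card_erase_of_mem h6.1, hF B h1]
    have : 0 < B.card := card_pos.2 ⟨_, h6.1⟩
    rw [hF B h1] at this
    omega
  · intro B hB B' hB' heq
    rw [mem_coe] at hB hB'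
    obtain ⟨h1, h2, h3, h4, h5, h6, h7⟩ := hDm B hB
    obtain ⟨h1', h2', h3', h4', h5', h6', h7'⟩ := hDm B' hB'
    have e1 : ini B = ini B' := congrArg Prod.fst heq
    have e2 : insert (m B) (B.erase (b B)) = insert (m B') (B'.erase (b B')) :=
      congrArg Prod.snd heq
    have e3 : m B = m B' := Fin.ext (by rw [h4, h4', e1])
    rw [mem_act] at h6 h6'
    have e4 : B.erase (b B) = B'.erase (b B') := by
      have k1 : (insert (m B) (B.erase (b B))).erase (m B) = B.erase (b B) :=
        erase_insert (fun h => h5 (mem_of_mem_erase h))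
      have k2 : (insert (m B') (B'.erase (b B'))).erase (m B') = B'.erase (b B') :=
        erase_insert (fun h => h5' (mem_of_mem_erase h))
      rw [← k1, ← k2, e2, e3]
    have e5 : insert (b B) (B.erase (b B)) = B := insert_erase h6.1
    have e6 : insert (b B') (B'.erase (b B')) = B' := insert_erase h6'.1
    rcases lt_trichotomy (b B) (b B') with h | h | h
    · exfalso
      have h8 : b B ∉ B' := by
        intro hmem
        have : b B ∈ B'.erase (b B') := mem_erase.2 ⟨ne_of_lt h, hmem⟩
        rw [← e4] at this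
        exact notMem_erase _ _ this
      apply h6'.2 (b B) h h8
      rw [← e4, e5]
      exact h1
    · rw [← e5, ← e6, ← e4, h]
    · exfalso
      have h8 : b B' ∉ B := by
        intro hmem
        have : b B' ∈ B.erase (b B) := mem_erase.2 ⟨ne_of_lt h, hmem⟩
        rw [e4] at this
        exact notMem_erase _ _ this
      apply h6.2 (b B') h h8
      rw [e4, e6]
      exact h1'

end Pool.Agent.N353.Roots
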