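import Pool.Agent.N353.Roots.Count

set_option autoImplicit false

namespace Pool.Agent.N353.Roots

open Finset Pool.Agent.Helper46.A

theorem ek_aux (a : ℕ → ℝ) (ρ : ℝ) (z : ℂ) (hz : ‖z‖ ≤ 1) (j : ℕ) :
    (∀ i, i < j → a (i + 1) ≤ ρ * a i) →
    ‖(1 - ρ * z) * (∑ i ∈ range (j + 1), (a i : ℂ) * z ^ i) + ρ * a j * z ^ (j + 1) - a 0‖ ≤
      a 0 - ρ * a j - (1 - ρ) * ∑ i ∈ range (j + 1), a i := by
  induction j with
  | zero =>
    intro _
    simp only [zero_add, range_one, sum_singleton, pow_zero, mul_one, pow_one]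
    have h1 : (1 - (ρ : ℂ) * z) * (a 0 : ℂ) + ρ * a 0 * z - a 0 = 0 := by ring
    rw [h1, norm_zero]
    have h2 : a 0 - ρ * a 0 - (1 - ρ) * a 0 = 0 := by ring
    rw [h2]
  | succ j ih =>
    intro hstep
    have h1 := ih (fun i hi => hstep i (by omega))
    have h2 := hstep j (by omega)
    have e1 : (1 - (ρ : ℂ) * z) * (∑ i ∈ range (j + 1 + 1), (a i : ℂ) * z ^ i) +
        ρ * a (j + 1) * z ^ (j + 1 + 1) - a 0 =
        ((1 - (ρ : ℂ) * z) * (∑ i ∈ range (j + 1), (a i : ℂ) * z ^ i) +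
          ρ * a j * z ^ (j + 1) - a 0) + ((a (j + 1) - ρ * a j : ℝ) : ℂ) * z ^ (j + 1) := by
      rw [sum_range_succ _ (j + 1)]
      push_cast
      ring
    have e2 : ‖((a (j + 1) - ρ * a j : ℝ) : ℂ) * z ^ (j + 1)‖ ≤ ρ * a j - a (j + 1) := by
      rw [norm_mul, norm_pow, Complex.norm_real, Real.norm_eq_abs, abs_of_nonpos (by linarith)]
      have h3 : ‖z‖ ^ (j + 1) ≤ 1 := pow_le_one₀ (norm_nonneg _) hz
      have h4 : 0 ≤ -(a (j + 1) - ρ * a j) := by linarith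
      calc -(a (j + 1) - ρ * a j) * ‖z‖ ^ (j + 1) ≤ -(a (j + 1) - ρ * a j) * 1 :=
            mul_le_mul_of_nonneg_left h3 h4
        _ = _ := by ring
    rw [e1, sum_range_succ _ (j + 1)]
    refine (norm_add_le _ _).trans ((add_le_add h1 e2).trans (le_of_eq ?_))
    ring

theorem ek (a : ℕ → ℝ) (ρ : ℝ) (J : ℕ) (ha : ∀ i ≤ J, 0 ≤ a i) (hρ0 : 0 ≤ ρ) (hρ1 : ρ ≤ 1)
    (hstep : ∀ i, i < J → a (i + 1) ≤ ρ * a i) (z : ℂ) (hz : ‖z‖ ≤ 1) :
    (1 - ρ) * a 0 ≤ 2 * ‖∑ i ∈ range (J + 1), (a i : ℂ) * z ^ i‖ := by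
  have h1 := ek_aux a ρ z hz J hstep
  set S : ℂ := ∑ i ∈ range (J + 1), (a i : ℂ) * z ^ i with hS
  set A : ℝ := ∑ i ∈ range (J + 1), a i with hA
  have hA0 : a 0 ≤ A := by
    rw [hA]
    exact single_le_sum (f := a) (fun i hi => ha i (by rw [mem_range] at hi; omega))
      (mem_range.2 (Nat.succ_pos J))
  have h2 : ‖(ρ : ℂ) * a J * z ^ (J + 1)‖ ≤ ρ * a J := by
    rw [norm_mul, norm_mul, norm_pow, Complex.norm_real, Complex.norm_real, Real.norm_eq_abs,
      Real.norm_eq_abs, abs_of_nonneg hρ0, abs_of_nonneg (ha J le_rfl)]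
    have h3 : ‖z‖ ^ (J + 1) ≤ 1 := pow_le_one₀ (norm_nonneg _) hz
    calc ρ * a J * ‖z‖ ^ (J + 1) ≤ ρ * a J * 1 :=
          mul_le_mul_of_nonneg_left h3 (mul_nonneg hρ0 (ha J le_rfl))
      _ = _ := mul_one _
  have h3 : ‖(a 0 : ℂ)‖ = a 0 := by
    rw [Complex.norm_real, Real.norm_eq_abs, abs_of_nonneg (ha 0 (Nat.zero_le _))]
  have h4 : a 0 ≤ ‖(1 - (ρ : ℂ) * z) * S‖ + ρ * a J + (a 0 - ρ * a J - (1 - ρ) * A) := by
    have e : (a 0 : ℂ) = (1 - (ρ : ℂ) * z) * S + ρ * a J * z ^ (J + 1) -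
        ((1 - (ρ : ℂ) * z) * S + ρ * a J * z ^ (J + 1) - a 0) := by ring
    calc a 0 = ‖(a 0 : ℂ)‖ := h3.symm
      _ = ‖(1 - (ρ : ℂ) * z) * S + ρ * a J * z ^ (J + 1) -
        ((1 - (ρ : ℂ) * z) * S + ρ * a J * z ^ (J + 1) - a 0)‖ := by rw [← e]
      _ ≤ ‖(1 - (ρ : ℂ) * z) * S + ρ * a J * z ^ (J + 1)‖ +
        ‖(1 - (ρ : ℂ) * z) * S + ρ * a J * z ^ (J + 1) - a 0‖ := norm_sub_le _ _
      _ ≤ (‖(1 - (ρ : ℂ) * z) * S‖ + ‖(ρ : ℂ) * a J * z ^ (J + 1)‖) +
        (a 0 - ρ * a J - (1 - ρ) * A) := add_le_add (norm_add_le _ _) h1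
      _ ≤ _ := by linarith
  have h5 : (1 - ρ) * A ≤ ‖(1 - (ρ : ℂ) * z) * S‖ := by linarith
  have h6 : ‖(1 - (ρ : ℂ) * z) * S‖ ≤ 2 * ‖S‖ := by
    rw [norm_mul]
    apply mul_le_mul_of_nonneg_right _ (norm_nonneg _)
    calc ‖1 - (ρ : ℂ) * z‖ ≤ ‖(1 : ℂ)‖ + ‖(ρ : ℂ) * z‖ := norm_sub_le _ _
      _ ≤ 1 + 1 := by
        rw [norm_one, norm_mul, Complex.norm_real, Real.norm_eq_abs, abs_of_nonneg hρ0]
        have : ρ * ‖z‖ ≤ 1 * 1 := mul_le_mul hρ1 hz (norm_nonneg _) zero_le_one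
        linarith
      _ = 2 := by norm_num
  have h7 : (1 - ρ) * a 0 ≤ (1 - ρ) * A := mul_le_mul_of_nonneg_left hA0 (by linarith)
  linarith

open Classical in
/-- the truncated generating function of the initial segments -/
theorem fib_sum {n r J : ℕ} (hJ : J ≤ n) (hJr : J ≤ r) (z : ℂ) :
    ∑ X ∈ (powersetCard r (univ : Finset (Fin n))).filter (fun X => ini X < J), z ^ ini X =
      ∑ i ∈ range J, (((n - 1 - i).choose (r - i) : ℕ) : ℂ) * z ^ i := by
  have h1 := sum_fiberwise_of_maps_to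
    (s := (powersetCard r (univ : Finset (Fin n))).filter (fun X => ini X < J)) (t := range J)
    (g := ini) (fun X hX => mem_range.2 (mem_filter.1 hX).2) (fun X => z ^ ini X)
  rw [← h1]
  apply sum_congr rfl
  intro i hi
  rw [mem_range] at hi
  rw [← count_ini (n := n) (r := r) (i := i) (by omega) (by omega)]
  rw [sum_congr rfl (g := fun _ => z ^ i)
    (fun X hX => by rw [(mem_filter.1 hX).2]), sum_const, nsmul_eq_mul]
  congr 2
  congr 1
  ext X
  rw [mem_filter, mem_filter, mem_filter]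
  constructor
  · rintro ⟨⟨h1, h2⟩, h3⟩
    exact ⟨h1, h3⟩
  · rintro ⟨h1, h3⟩
    exact ⟨⟨h1, by omega⟩, h3⟩

open Classical in
theorem main_est {n r J : ℕ} (hn : 0 < n) (hJ : J ≤ n) (hJr : J ≤ r) (F : Fam n)
    (hF : ∀ X ∈ F, X.card = r) (z : ℂ) (hz : ‖z‖ ≤ 1) :
    ‖∑ X ∈ (powersetCard r (univ : Finset (Fin n))).filter (fun X => ini X < J), z ^ ini X -
      ∑ B ∈ F, z ^ (act F B).card‖ ≤
      (2 * J + 1) * (((powersetCard r (univ : Finset (Fin n))) \ F).card : ℝ) +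
        ((n - J).choose (r - J) : ℝ) := by
  set V := powersetCard r (univ : Finset (Fin n)) with hV
  have hFV : F ⊆ V := fun X hX => by
    rw [hV, mem_powersetCard]; exact ⟨subset_univ _, hF X hX⟩
  have hpow : ∀ k : ℕ, ‖z ^ k‖ ≤ 1 := fun k => by
    rw [norm_pow]; exact pow_le_one₀ (norm_nonneg _) hz
  -- decompose the two sums
  have e1 : ∑ X ∈ V.filter (fun X => ini X < J), z ^ ini X =
      ∑ X ∈ (V \ F).filter (fun X => ini X < J), z ^ ini X +
        ∑ X ∈ F.filter (fun X => ini X < J), z ^ ini X := by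
    rw [← sum_union]
    · apply sum_congr _ (fun _ _ => rfl)
      ext X
      rw [mem_union, mem_filter, mem_filter, mem_filter, Finset.mem_sdiff]
      constructor
      · rintro ⟨h1, h2⟩
        by_cases h : X ∈ F
        · exact Or.inr ⟨h, h2⟩
        · exact Or.inl ⟨⟨h1, h⟩, h2⟩
      · rintro (⟨⟨h1, _⟩, h2⟩ | ⟨h1, h2⟩)
        · exact ⟨h1, h2⟩
        · exact ⟨hFV h1, h2⟩
    · rw [Finset.disjoint_left]
      intro X hX hX'
      rw [mem_filter, Finset.mem_sdiff] at hX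
      rw [mem_filter] at hX'
      exact hX.1.2 hX'.1
  have e2 : ∑ B ∈ F, z ^ (act F B).card =
      ∑ B ∈ F.filter (fun X => ini X < J), z ^ (act F B).card +
        ∑ B ∈ F.filter (fun X => ¬ ini X < J), z ^ (act F B).card :=
    (sum_filter_add_sum_filter_not _ _ _).symm
  have e3 : ∑ X ∈ F.filter (fun X => ini X < J), (z ^ ini X - z ^ (act F X).card) =
      ∑ X ∈ F.filter (fun B => ini B < J ∧ (act F B).card ≠ ini B),
        (z ^ ini X - z ^ (act F X).card) := by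
    symm
    apply sum_subset
    · intro X hX
      rw [mem_filter] at hX ⊢
      exact ⟨hX.1, hX.2.1⟩
    · intro X hX hX'
      rw [mem_filter] at hX hX'
      have : (act F X).card = ini X := by
        by_contra hcon
        exact hX' ⟨hX.1, hX.2, hcon⟩
      rw [this, sub_self]
  rw [e1, e2]
  have e4 : ∑ X ∈ (V \ F).filter (fun X => ini X < J), z ^ ini X +
        ∑ X ∈ F.filter (fun X => ini X < J), z ^ ini X -
      (∑ B ∈ F.filter (fun X => ini X < J), z ^ (act F B).card +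
        ∑ B ∈ F.filter (fun X => ¬ ini X < J), z ^ (act F B).card) =
      ∑ X ∈ (V \ F).filter (fun X => ini X < J), z ^ ini X +
      ∑ X ∈ F.filter (fun B => ini B < J ∧ (act F B).card ≠ ini B),
        (z ^ ini X - z ^ (act F X).card) -
        ∑ B ∈ F.filter (fun X => ¬ ini X < J), z ^ (act F B).card := by
    rw [← e3, sum_sub_distrib]
    ring
  rw [e4]
  have b1 : ‖∑ X ∈ (V \ F).filter (fun X => ini X < J), z ^ ini X‖ ≤ ((V \ F).card : ℝ) := by
    calc _ ≤ ∑ X ∈ (V \ F).filter (fun X => ini X < J), ‖z ^ ini X‖ := norm_sum_le _ _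
      _ ≤ ∑ X ∈ (V \ F).filter (fun X => ini X < J), (1 : ℝ) := sum_le_sum (fun X _ => hpow _)
      _ = (((V \ F).filter (fun X => ini X < J)).card : ℝ) := by
          rw [sum_const, nsmul_eq_mul, mul_one]
      _ ≤ _ := by exact_mod_cast card_filter_le _ _
  have b2 : ‖∑ X ∈ F.filter (fun B => ini B < J ∧ (act F B).card ≠ ini B),
        (z ^ ini X - z ^ (act F X).card)‖ ≤ 2 * (J * ((V \ F).card : ℝ)) := by
    calc _ ≤ ∑ X ∈ F.filter (fun B => ini B < J ∧ (act F B).card ≠ ini B),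
          ‖z ^ ini X - z ^ (act F X).card‖ := norm_sum_le _ _
      _ ≤ ∑ X ∈ F.filter (fun B => ini B < J ∧ (act F B).card ≠ ini B), (2 : ℝ) := by
          apply sum_le_sum
          intro X _
          refine (norm_sub_le _ _).trans ?_
          linarith [hpow (ini X), hpow (act F X).card]
      _ = ((F.filter (fun B => ini B < J ∧ (act F B).card ≠ ini B)).card : ℝ) * 2 := by
          rw [sum_const, nsmul_eq_mul]
      _ ≤ ((J * (V \ F).card : ℕ) : ℝ) * 2 := by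
          apply mul_le_mul_of_nonneg_right _ (by norm_num)
          exact_mod_cast diff_count hn hJ F hF
      _ = _ := by push_cast; ring
  have b3 : ‖∑ B ∈ F.filter (fun X => ¬ ini X < J), z ^ (act F B).card‖ ≤
      ((n - J).choose (r - J) : ℝ) := by
    calc _ ≤ ∑ B ∈ F.filter (fun X => ¬ ini X < J), ‖z ^ (act F B).card‖ := norm_sum_le _ _
      _ ≤ ∑ B ∈ F.filter (fun X => ¬ ini X < J), (1 : ℝ) := sum_le_sum (fun X _ => hpow _)
      _ = ((F.filter (fun X => ¬ ini X < J)).card : ℝ) := by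
          rw [sum_const, nsmul_eq_mul, mul_one]
      _ ≤ ((V.filter (fun X => J ≤ ini X)).card : ℝ) := by
          have : (F.filter (fun X => ¬ ini X < J)).card ≤ (V.filter (fun X => J ≤ ini X)).card := by
            apply card_le_card
            intro X hX
            rw [mem_filter] at hX ⊢
            exact ⟨hFV hX.1, by omega⟩
          exact_mod_cast this
      _ = _ := by rw [hV, count_ini_ge hJ hJr]
  refine (norm_sub_le _ _).trans ?_
  refine (add_le_add ((norm_add_le _ _).trans (add_le_add b1 b2)) b3).trans (le_of_eq ?_)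
  ring

theorem choose_ratio {n r J : ℕ} (h : 8 * r ≤ 7 * n) (hJ : J ≤ r) :
    ((n - J).choose (r - J) : ℝ) ≤ (7 / 8) ^ J * (n.choose r : ℝ) := by
  induction J with
  | zero => simp
  | succ J ih =>
    have h1 := ih (by omega)
    obtain ⟨m, hm⟩ : ∃ m, n - J = m + 1 := ⟨n - J - 1, by omega⟩
    obtain ⟨s, hs⟩ : ∃ s, r - J = s + 1 := ⟨r - J - 1, by omega⟩
    have e1 : n - (J + 1) = m := by omega
    have e2 : r - (J + 1) = s := by omega
    rw [hm, hs] at h1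
    rw [e1, e2, pow_succ]
    have h2 : (m + 1) * m.choose s = (m + 1).choose (s + 1) * (s + 1) := Nat.add_one_mul_choose_eq m s
    have h3 : 8 * (s + 1) ≤ 7 * (m + 1) := by omega
    have h2' : ((m : ℝ) + 1) * (m.choose s : ℝ) = ((m + 1).choose (s + 1) : ℝ) * ((s : ℝ) + 1) := by
      exact_mod_cast h2
    have h3' : 8 * ((s : ℝ) + 1) ≤ 7 * ((m : ℝ) + 1) := by exact_mod_cast h3
    have h4 : (0 : ℝ) < (m : ℝ) + 1 := by positivity
    have h5 : (m.choose s : ℝ) ≤ 7 / 8 * ((m + 1).choose (s + 1) : ℝ) := by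
      have h6 : ((m : ℝ) + 1) * (m.choose s : ℝ) ≤
          ((m : ℝ) + 1) * (7 / 8 * ((m + 1).choose (s + 1) : ℝ)) := by
        rw [h2']
        have : (0 : ℝ) ≤ ((m + 1).choose (s + 1) : ℝ) := by positivity
        nlinarith
      exact le_of_mul_le_mul_left h6 h4
    calc (m.choose s : ℝ) ≤ 7 / 8 * ((m + 1).choose (s + 1) : ℝ) := h5
      _ ≤ 7 / 8 * ((7 / 8) ^ J * (n.choose r : ℝ)) := by linarith
      _ = _ := by ring

theorem a_step {n r i : ℕ} (h : 8 * r ≤ 7 * n) (hn : 64 ≤ n) (hi : i + 1 ≤ r) :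
    ((n - 1 - (i + 1)).choose (r - (i + 1)) : ℝ) ≤ 8 / 9 * ((n - 1 - i).choose (r - i) : ℝ) := by
  obtain ⟨m, hm⟩ : ∃ m, n - 1 - i = m + 1 := ⟨n - 1 - i - 1, by omega⟩
  obtain ⟨s, hs⟩ : ∃ s, r - i = s + 1 := ⟨r - i - 1, by omega⟩
  have e1 : n - 1 - (i + 1) = m := by omega
  have e2 : r - (i + 1) = s := by omega
  rw [hm, hs, e1, e2]
  have h2 : (m + 1) * m.choose s = (m + 1).choose (s + 1) * (s + 1) := Nat.add_one_mul_choose_eq m s
  have h3 : 9 * (s + 1) ≤ 8 * (m + 1) := by omega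
  have h2' : ((m : ℝ) + 1) * (m.choose s : ℝ) = ((m + 1).choose (s + 1) : ℝ) * ((s : ℝ) + 1) := by
    exact_mod_cast h2
  have h3' : 9 * ((s : ℝ) + 1) ≤ 8 * ((m : ℝ) + 1) := by exact_mod_cast h3
  have h4 : (0 : ℝ) < (m : ℝ) + 1 := by positivity
  have h6 : ((m : ℝ) + 1) * (m.choose s : ℝ) ≤
      ((m : ℝ) + 1) * (8 / 9 * ((m + 1).choose (s + 1) : ℝ)) := by
    rw [h2']
    have : (0 : ℝ) ≤ ((m + 1).choose (s + 1) : ℝ) := by positivity
    nlinarith
  exact le_of_mul_le_mul_left h6 h4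

theorem a_zero {n r : ℕ} (h : 8 * r ≤ 7 * n) (hn : 64 ≤ n) :
    (n.choose r : ℝ) ≤ 8 * ((n - 1).choose r : ℝ) := by
  obtain ⟨m, rfl⟩ : ∃ m, n = m + 1 := ⟨n - 1, by omega⟩
  rw [Nat.add_sub_cancel]
  have h1 := Nat.choose_mul_succ_eq m r
  have hr : r ≤ m + 1 := by omega
  have h1' : (m.choose r : ℝ) * ((m : ℝ) + 1) = ((m + 1).choose r : ℝ) * ((m : ℝ) + 1 - r) := by
    have e : ((m + 1 - r : ℕ) : ℝ) = (m : ℝ) + 1 - r := by
      rw [Nat.cast_sub hr]; push_cast; ring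
    rw [← e]
    exact_mod_cast h1
  have h2 : 8 * (r : ℝ) ≤ 7 * ((m : ℝ) + 1) := by exact_mod_cast h
  have h3 : (0 : ℝ) < (m : ℝ) + 1 := by positivity
  have h4 : ((m : ℝ) + 1) * ((m + 1).choose r : ℝ) ≤ ((m : ℝ) + 1) * (8 * (m.choose r : ℝ)) := by
    have h5 : (0 : ℝ) ≤ ((m + 1).choose r : ℝ) := by positivity
    nlinarith
  exact le_of_mul_le_mul_left h4 h3

/-- the main point: few nonbases force the polynomial to have no root in the closed unit disk -/
theorem nonvanish {n r : ℕ} (hn : 400 ≤ n) (h1 : n ≤ 8 * r) (h2 : 8 * r ≤ 7 * n) (F : Fam n)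
    (hF : ∀ X ∈ F, X.card = r)
    (hNB : (((powersetCard r (univ : Finset (Fin n))) \ F).card : ℝ) ≤ 1 / 30000 * (n.choose r : ℝ))
    (z : ℂ) (hz : ‖z‖ ≤ 1) : ∑ B ∈ F, z ^ (act F B).card ≠ 0 := by
  classical
  intro hzero
  have hm := main_est (n := n) (r := r) (J := 44) (by omega) (by omega) (by omega) F hF z hz
  rw [hzero, sub_zero, fib_sum (by omega) (by omega)] at hm
  have hek := ek (fun i => ((n - 1 - i).choose (r - i) : ℝ)) (8 / 9) 43
    (fun i _ => by positivity) (by norm_num) (by norm_num)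
    (fun i hi => a_step h2 (by omega) (by omega)) z hz
  have hconv : ∑ i ∈ range 44, (((n - 1 - i).choose (r - i) : ℕ) : ℂ) * z ^ i =
      ∑ i ∈ range (43 + 1), (((((n - 1 - i).choose (r - i) : ℕ) : ℝ)) : ℂ) * z ^ i := by
    apply sum_congr rfl
    intro i _
    push_cast
    rfl
  rw [hconv] at hm
  have ha0 := a_zero h2 (by omega)
  have hcr := choose_ratio (J := 44) h2 (by omega)
  simp only [Nat.sub_zero] at hek
  have hpos : (0 : ℝ) < n.choose r := by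
    have : 0 < n.choose r := Nat.choose_pos (by omega)
    exact_mod_cast this
  have h78 : ((7 : ℝ) / 8) ^ 44 ≤ 29 / 10000 := by norm_num
  have hcr2 : ((n - 44).choose (r - 44) : ℝ) ≤ 29 / 10000 * (n.choose r : ℝ) :=
    hcr.trans (mul_le_mul_of_nonneg_right h78 hpos.le)
  push_cast at hm hek
  nlinarith

end Pool.Agent.N353.Roots
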